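import Pool.Agent.Helper61.TQ.Core
import Pool.Agent.Helper53.CL.Cook

set_option autoImplicit false

/-! The classes of Turing machines in terms of stack programs. -/

namespace Pool.Agent.Helper61.TQ

open Pool.Agent.Helper58 Pool.Agent.Helper53.CL Pool.Agent.Helper52.Grid Function

/-- polynomially bounded in terms of the length of a word -/
lemma cls_word {B : W → ℕ} (h : PB B) : ∃ p : Polynomial ℕ, ∀ u, B u ≤ p.eval u.length := by
  obtain ⟨k, hk⟩ := h
  refine ⟨(4 * Polynomial.X + 2) ^ k, fun u => (hk u).trans ?_⟩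
  have h1 : Polynomial.eval u.length ((4 * Polynomial.X + 2 : Polynomial ℕ) ^ k)
      = (4 * u.length + 2) ^ k := by simp
  rw [h1]
  have := sz_bits_le u
  exact Nat.pow_le_pow_left (by omega) k

lemma cls_nat {B : ℕ → ℕ} (h : PB B) : ∃ p : Polynomial ℕ, ∀ n, B n ≤ p.eval n := by
  obtain ⟨k, hk⟩ := h
  refine ⟨(2 * Polynomial.X + 2) ^ k, fun u => (hk u).trans ?_⟩
  have h1 : Polynomial.eval u ((2 * Polynomial.X + 2 : Polynomial ℕ) ^ k) = (2 * u + 2) ^ k := by simp
  rw [h1, sz_nat]

lemma cls_np (A : Set W) : InNP A ↔ NPf (fun x => x ∈ A) := by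
  rw [inNP_iff]
  constructor
  · rintro ⟨V, p, hV, hA⟩
    have hp : PTf (fun u : W => p.eval u.length) := ptf_poly (m := fun u : W => u.length) (by fun_prop) p
    have hp2 : PTf (fun x : W × W => p.eval x.1.length) := PTf.comp hp (PTf.fst PTf.id)
    refine ⟨fun u w => decide (w.length < p.eval u.length + 1) && V (u, w), fun u => p.eval u.length,
      ?_, hp, ?_, ?_⟩
    · have h1 : PTf (fun x : W × W => V (x.1, x.2)) := hV.congr (fun x => rfl)
      fun_prop
    · intro a w h
      rw [Bool.and_eq_true, decide_eq_true_iff] at h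
      exact (hA a).2 ⟨w, by omega, h.2⟩
    · intro a h
      obtain ⟨w, h1, h2⟩ := (hA a).1 h
      refine ⟨w, h1, ?_⟩
      rw [Bool.and_eq_true, decide_eq_true_iff]
      exact ⟨by omega, h2⟩
  · rintro ⟨V, B, hV, hB, hs, hc⟩
    obtain ⟨p, hp⟩ : ∃ p : Polynomial ℕ, ∀ u : W, B u ≤ p.eval u.length := by
      refine cls_word (hB.sz_le.mono (fun u => ?_))
      rw [sz_nat]; omega
    refine ⟨fun x => V x.1 x.2, p, hV, fun u => ⟨fun h => ?_, ?_⟩⟩
    · obtain ⟨w, h1, h2⟩ := hc u h
      exact ⟨w, h1.trans (hp u), h2⟩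
    · rintro ⟨w, _, h⟩
      exact hs u w h

lemma cls_fun (q : W → W) : PolyFun q ↔ PTf q := by
  constructor
  · intro h
    have h1 := ptf_of_polyTime (fun u : W => u) (fun u : W => u) injective_id h
    exact h1.recode (i := fun u => ⟨u⟩) (fun _ => rfl) (fun _ => rfl)
  · intro h
    have hinj : Injective (fun a : W => a.map (fun b => (b, b))) := by
      exact List.map_injective_iff.2 (fun a b h => (Prod.ext_iff.1 h).1)
    have h1 := ptf_val (fun u : W => u) (fun b => (b, b)) (fun a b h => (Prod.ext_iff.1 h).1) hinj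
    exact polyTime_of_ptf (fun u : W => u) (fun b => (b, b)) hinj (fun u : W => u) (PTf.comp h h1)

theorem st_CLS : ST_CLS := by
  refine ⟨cls_np, cls_fun, verifier_iff, ?_⟩
  intro ℓ h
  exact cls_nat (h.sz_le.mono (fun u => by rw [sz_nat]; omega))

end Pool.Agent.Helper61.TQ
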